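/-
A finitely generated acyclic monoid that does not satisfy the ascending chain condition on principal
ideals: four generators `a, b, c, d` and the relations `b c ^ k d = a b c ^ (k + 1) d`. The monoid is
given by its faithful action on words.
-/
import Mathlib

set_option autoImplicit false

open Set

namespace Pool.Agent.Results.MP_07bc1a_al.FGAcyclic

universe u

/-- `H` is acyclic. -/
def Acyclic (H : Type u) [Monoid H] : Prop :=
  ∀ p q x : H, (¬ IsUnit p ∨ ¬ IsUnit q) → p * x * q ≠ x

/-- The principal two-sided ideal `H x H`. -/
def principal {H : Type u} [Monoid H] (x : H) : Set H := {z | ∃ p q : H, z = p * x * q}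

/-- The ascending chain condition on principal ideals. -/
def ACCP (H : Type u) [Monoid H] : Prop :=
  ¬ ∃ x : ℕ → H, ∀ k, principal (x k) ⊂ principal (x (k + 1))

/-- the letters -/
inductive L : Type
  | a | b | c | d
  deriving DecidableEq

instance : Finite L := by
  refine Finite.of_injective (fun l : L => match l with
    | L.a => (0 : Fin 4) | L.b => 1 | L.c => 2 | L.d => 3) ?_
  intro x y h
  cases x <;> cases y <;> simp_all

/-- does the word begin with `c ^ m d`? -/
def good : List L → Bool
  | L.c :: w => good w
  | L.d :: _ => true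
  | L.a :: _ => false
  | L.b :: _ => false
  | [] => false

/-- multiplication by `a` on the left: `a b c ^ (m + 1) d` is rewritten as `b c ^ m d` -/
def pa : List L → List L
  | L.b :: L.c :: w => if good w then L.b :: w else L.a :: L.b :: L.c :: w
  | w => L.a :: w

/-- multiplication by a letter on the left -/
def gen : L → List L → List L
  | L.a => pa
  | L.b => fun w => L.b :: w
  | L.c => fun w => L.c :: w
  | L.d => fun w => L.d :: w

/-- multiplication by a word on the left -/
def act (w y : List L) : List L := w.foldr gen y

theorem act_append (w w' y : List L) : act (w ++ w') y = act w (act w' y) := by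
  unfold act
  rw [List.foldr_append]

theorem act_cons (l : L) (w y : List L) : act (l :: w) y = gen l (act w y) := rfl

theorem pa_cases (w : List L) : pa w = L.a :: w ∨ ∃ t, w = L.b :: L.c :: t ∧ good t = true ∧
    pa w = L.b :: t := by
  unfold pa
  split
  · rename_i t
    split_ifs with h
    · exact Or.inr ⟨t, rfl, h, rfl⟩
    · exact Or.inl rfl
  · exact Or.inl rfl

theorem good_iff {w : List L} (h : good w = true) :
    ∃ m y, w = List.replicate m L.c ++ L.d :: y := by
  induction w with
  | nil => exact absurd h (by simp [good])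
  | cons l w ih =>
    cases l with
    | a => exact absurd h (by simp [good])
    | b => exact absurd h (by simp [good])
    | c =>
      obtain ⟨m, y, rfl⟩ := ih h
      exact ⟨m + 1, y, rfl⟩
    | d => exact ⟨0, w, rfl⟩

theorem good_replicate (m : ℕ) (y : List L) : good (List.replicate m L.c ++ L.d :: y) = true := by
  induction m with
  | zero => rfl
  | succ m ih => exact ih

theorem mem_of_good {w : List L} (h : good w = true) : L.d ∈ w := by
  obtain ⟨m, y, rfl⟩ := good_iff h
  simp

theorem good_append {w y : List L} (hy : L.d ∉ y) : good (w ++ y) = good w := by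
  induction w with
  | nil =>
    cases h : good y with
    | true => exact absurd (mem_of_good h) hy
    | false => simp [h, good]
  | cons l w ih => cases l <;> simp [good, ih]

/-- the counts of `b` and `d` are additive -/
theorem count_gen (l m : L) (hl : l = L.b ∨ l = L.d) (y : List L) :
    (gen m y).count l = [m].count l + y.count l := by
  cases m with
  | a =>
    change (pa y).count l = _
    rcases pa_cases y with h | ⟨t, rfl, -, h⟩
    · rw [h]
      rcases hl with rfl | rfl <;> simp
    · rw [h]
      rcases hl with rfl | rfl <;> simp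
  | b => rcases hl with rfl | rfl <;> simp [gen, add_comm]
  | c => rcases hl with rfl | rfl <;> simp [gen]
  | d => rcases hl with rfl | rfl <;> simp [gen, add_comm]

theorem count_act (l : L) (hl : l = L.b ∨ l = L.d) (w y : List L) :
    (act w y).count l = w.count l + y.count l := by
  induction w with
  | nil => simp [act]
  | cons m w ih =>
    rw [act_cons, count_gen l m hl, ih, List.count_cons (l := w)]
    simp only [List.count_singleton]
    rcases hl with rfl | rfl <;> cases m <;> simp <;> ring

/-- appending a word without `d` -/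
theorem gen_append (l : L) (z y : List L) (hy : L.d ∉ y) : gen l (z ++ y) = gen l z ++ y := by
  cases l with
  | b => rfl
  | c => rfl
  | d => rfl
  | a =>
    change pa (z ++ y) = pa z ++ y
    match z with
    | L.b :: L.c :: w =>
      change (if good (w ++ y) then L.b :: (w ++ y) else L.a :: L.b :: L.c :: (w ++ y)) =
        (if good w then L.b :: w else L.a :: L.b :: L.c :: w) ++ y
      rw [good_append hy]
      split_ifs <;> rfl
    | [] =>
      rcases pa_cases y with h | ⟨t, rfl, h, -⟩
      · exact h
      · exact absurd (mem_of_good h) (fun h' => hy (by simp [h']))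
    | [L.b] =>
      rcases pa_cases (L.b :: y) with h | ⟨t, h1, h, -⟩
      · exact h
      · rw [List.cons.injEq] at h1
        exact absurd (mem_of_good h) (fun h' => hy (by rw [h1.2]; simp [h']))
    | L.a :: w => rfl
    | L.c :: w => rfl
    | L.d :: w => rfl
    | L.b :: L.a :: w => rfl
    | L.b :: L.b :: w => rfl
    | L.b :: L.d :: w => rfl

theorem act_append_right (w z y : List L) (hy : L.d ∉ y) : act w (z ++ y) = act w z ++ y := by
  induction w with
  | nil => rfl
  | cons l w ih => rw [act_cons, act_cons, ih, gen_append _ _ _ hy]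

/-- a word without `b` is its own normal form -/
theorem act_nil {w : List L} (hw : L.b ∉ w) : act w [] = w := by
  induction w with
  | nil => rfl
  | cons l w ih =>
    rw [List.mem_cons, not_or] at hw
    rw [act_cons, ih hw.2]
    cases l with
    | a =>
      change pa w = L.a :: w
      rcases pa_cases w with h | ⟨t, rfl, -⟩
      · exact h
      · simp at hw
    | b => rfl
    | c => rfl
    | d => rfl

/-- first state: some letters `c` of `x` have been removed -/
def S1 (x z : List L) : Prop := ∃ m i y, x = L.b :: (List.replicate (m + i + 1) L.c ++ L.d :: y) ∧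
  z = L.b :: (List.replicate m L.c ++ L.d :: y)

/-- second state: the word begins with `a` or `c` -/
def S2 (x z : List L) : Prop := (∃ t, z = L.a :: t ∨ z = L.c :: t) ∧
  ((∃ t, x = L.b :: t) ∨ x.length < z.length)

theorem step {x z : List L} (l : L) (hl : l = L.a ∨ l = L.c) (h : z = x ∨ S1 x z ∨ S2 x z) :
    S1 x (gen l z) ∨ S2 x (gen l z) := by
  rcases hl with rfl | rfl
  · change S1 x (pa z) ∨ S2 x (pa z)
    rcases h with rfl | ⟨m, i, y, rfl, rfl⟩ | ⟨⟨t, ht⟩, h2⟩
    · rcases pa_cases z with h | ⟨t, rfl, ht, h⟩
      · right
        rw [h]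
        exact ⟨⟨z, Or.inl rfl⟩, Or.inr (by simp)⟩
      · left
        rw [h]
        obtain ⟨m, y, rfl⟩ := good_iff ht
        exact ⟨m, 0, y, rfl, rfl⟩
    · cases m with
      | zero => exact Or.inr ⟨⟨_, Or.inl rfl⟩, Or.inl ⟨_, rfl⟩⟩
      | succ m =>
        left
        have h1 : pa (L.b :: (List.replicate (m + 1) L.c ++ L.d :: y)) =
            L.b :: (List.replicate m L.c ++ L.d :: y) := by
          change (if good (List.replicate m L.c ++ L.d :: y) then _ else _) = _
          rw [if_pos (good_replicate m y)]
          rfl
        rw [h1]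
        exact ⟨m, i + 1, y, by rw [show m + 1 + i + 1 = m + (i + 1) + 1 by ring], rfl⟩
    · right
      have h1 : pa z = L.a :: z := by
        rcases ht with rfl | rfl <;> rfl
      rw [h1]
      refine ⟨⟨z, Or.inl rfl⟩, h2.imp id fun h => ?_⟩
      rw [List.length_cons]
      omega
  · change S1 x (L.c :: z) ∨ S2 x (L.c :: z)
    right
    refine ⟨⟨z, Or.inr rfl⟩, ?_⟩
    rcases h with rfl | ⟨m, i, y, rfl, -⟩ | ⟨-, h2⟩
    · exact Or.inr (by simp)
    · exact Or.inl ⟨_, rfl⟩
    · refine h2.imp id fun h => ?_
      rw [List.length_cons]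
      omega

theorem states {x w : List L} (hb : L.b ∉ w) (hd : L.d ∉ w) :
    (w = [] ∧ act w x = x) ∨ S1 x (act w x) ∨ S2 x (act w x) := by
  induction w with
  | nil => exact Or.inl ⟨rfl, rfl⟩
  | cons l w ih =>
    rw [List.mem_cons, not_or] at hb hd
    right
    rw [act_cons]
    apply step
    · cases l with
      | a => exact Or.inl rfl
      | b => exact absurd rfl hb.1
      | c => exact Or.inr rfl
      | d => exact absurd rfl hd.1
    · rcases ih hb.2 hd.2 with h | h
      · exact Or.inl h.2
      · exact Or.inr h

theorem ne_of_states {x z v : List L} (h : S1 x z ∨ S2 x z) : z ++ v ≠ x := by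
  intro hz
  rcases h with ⟨m, i, y, rfl, rfl⟩ | ⟨⟨t, ht⟩, ⟨s, rfl⟩ | h2⟩
  · rw [List.cons_append, List.cons.injEq, List.append_assoc,
      show m + i + 1 = m + (i + 1) by ring, List.replicate_add, List.append_assoc] at hz
    have h1 := List.append_cancel_left hz.2
    rw [List.replicate_succ] at h1
    simp at h1
  · rcases ht with rfl | rfl <;> simp at hz
  · rw [← hz, List.length_append] at h2
    omega

/-- the key fact -/
theorem key {p q x : List L} (h : act p (act x (act q [])) = act x []) : p = [] ∧ q = [] := by
  have hcount : ∀ l : L, l = L.b ∨ l = L.d → l ∉ p ∧ l ∉ q := by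
    intro l hl
    have h1 := congrArg (List.count l) h
    rw [count_act l hl, count_act l hl, count_act l hl, count_act l hl] at h1
    constructor
    · rw [← List.count_eq_zero]
      omega
    · rw [← List.count_eq_zero]
      omega
  rw [act_nil (hcount L.b (Or.inl rfl)).2] at h
  have hd := hcount L.d (Or.inr rfl)
  have h2 : act x q = act x [] ++ q := act_append_right x [] q hd.2
  rw [h2, act_append_right _ _ _ hd.2] at h
  rcases states (x := act x []) (hcount L.b (Or.inl rfl)).1 hd.1 with h3 | h3
  · rw [h3.2] at h
    exact ⟨h3.1, by simpa using h⟩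
  · exact absurd h (ne_of_states h3)

/-- the homomorphism from words to transformations of the set of words -/
def hom : FreeMonoid L →* Function.End (List L) :=
  FreeMonoid.lift fun l => (gen l : Function.End (List L))

theorem hom_apply (w : FreeMonoid L) (y : List L) : hom w y = act w.toList y := by
  induction w using FreeMonoid.inductionOn' with
  | one => rfl
  | of_mul l w ih =>
    rw [map_mul]
    change gen l (hom w y) = act (l :: w.toList) y
    rw [ih, act_cons]

/-- the monoid -/
abbrev Mo : Type := MonoidHom.mrange hom

theorem acyclic : Acyclic Mo := by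
  rintro ⟨_, p, rfl⟩ ⟨_, q, rfl⟩ ⟨_, x, rfl⟩ hu h
  have h1 : hom p * hom x * hom q = hom x := congrArg Subtype.val h
  have h2 := congrFun h1 []
  change hom p (hom x (hom q [])) = hom x [] at h2
  rw [hom_apply, hom_apply, hom_apply, hom_apply] at h2
  obtain ⟨hp, hq⟩ := key h2
  have hp' : p = 1 := hp
  have hq' : q = 1 := hq
  subst hp' hq'
  rcases hu with hu | hu <;> exact hu ⟨1, Subtype.ext (map_one hom).symm⟩

/-- the word `b c ^ k d` -/
def wd (k : ℕ) : FreeMonoid L := FreeMonoid.ofList (L.b :: (List.replicate k L.c ++ [L.d]))

theorem wd_rel (k : ℕ) : hom (wd k) = hom (FreeMonoid.of L.a) * hom (wd (k + 1)) := by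
  funext y
  change hom (wd k) y = hom (FreeMonoid.of L.a) (hom (wd (k + 1)) y)
  rw [hom_apply, hom_apply, hom_apply]
  have h1 : ∀ k, act (wd k).toList y = L.b :: (List.replicate k L.c ++ L.d :: y) := by
    intro k
    change act (L.b :: (List.replicate k L.c ++ [L.d])) y = _
    rw [act_cons]
    change L.b :: act (List.replicate k L.c ++ [L.d]) y = _
    congr 1
    induction k with
    | zero => rfl
    | succ k ih =>
      change L.c :: act (List.replicate k L.c ++ [L.d]) y = _
      rw [ih]
      rfl
  rw [h1, h1]
  change _ = pa (L.b :: (List.replicate (k + 1) L.c ++ L.d :: y))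
  change _ = (if good (List.replicate k L.c ++ L.d :: y) then _ else _)
  rw [if_pos (good_replicate k y)]
  rfl

/-- the element `b c ^ k d` of the monoid -/
def xk (k : ℕ) : Mo := ⟨hom (wd k), wd k, rfl⟩

theorem xk_rel (k : ℕ) : xk k = ⟨hom (FreeMonoid.of L.a), FreeMonoid.of L.a, rfl⟩ * xk (k + 1) :=
  Subtype.ext (wd_rel k)

theorem not_accp : ¬ ACCP Mo := by
  intro h
  apply h
  refine ⟨xk, fun k => ⟨?_, ?_⟩⟩
  · rintro _ ⟨p, q, rfl⟩
    exact ⟨p * ⟨hom (FreeMonoid.of L.a), FreeMonoid.of L.a, rfl⟩, q, by
      rw [xk_rel k]; simp only [mul_assoc]⟩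
  · intro hsub
    obtain ⟨⟨_, p, rfl⟩, ⟨_, q, rfl⟩, h1⟩ := hsub (show xk (k + 1) ∈ principal (xk (k + 1)) from
      ⟨1, 1, by simp⟩)
    rw [xk_rel k] at h1
    have h2 : hom (wd (k + 1)) = hom p * (hom (FreeMonoid.of L.a) * hom (wd (k + 1))) * hom q :=
      congrArg Subtype.val h1
    have h3 := congrFun h2 []
    change hom (wd (k + 1)) [] = hom p (hom (FreeMonoid.of L.a) (hom (wd (k + 1)) (hom q []))) at h3
    rw [hom_apply, hom_apply, hom_apply, hom_apply, hom_apply] at h3
    rw [← act_append] at h3
    have h4 := (key h3.symm).1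
    change p.toList ++ [L.a] = [] at h4
    simp at h4

/-- **Main theorem.** There is a finitely generated acyclic monoid that does not satisfy the
ascending chain condition on principal ideals. -/
theorem result : ∃ (H : Type) (_ : Monoid H), Monoid.FG H ∧ Acyclic H ∧ ¬ ACCP H :=
  ⟨Mo, inferInstance, inferInstance, acyclic, not_accp⟩

end Pool.Agent.Results.MP_07bc1a_al.FGAcyclic
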